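import Pool.Agent.X292.ZP.Pub

/-!
# The groups of a point and of a subvariety which contains it: definitions
-/

set_option autoImplicit false

namespace Pool.Agent.X292.NS

open Pool.Agent.W528.ZC (Vanishes mapQ)
open Pool.Agent.X292.ZP (Idx blocks)

variable {ℓ : ℕ} [Fact ℓ.Prime] {Γ ΓY : Type} [Group Γ] [Group ΓY]

/-- The identity components of the Zariski closures of the images of `R₀` and of `R` are equal: the
same polynomials in the entries vanish on the images of subgroups of finite index. -/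
def SameGroup {τ : Type} [Fintype τ] [DecidableEq τ] (R₀ : Γ →* Matrix τ τ ℚ_[ℓ])
    (R : ΓY →* Matrix τ τ ℚ_[ℓ]) : Prop :=
  ∀ f : MvPolynomial (τ × τ) (AlgebraicClosure ℚ_[ℓ]), Vanishes R₀ f ↔ Vanishes R f

variable {I : Type} [Fintype I] [DecidableEq I] {κ : Type} [Fintype κ] [DecidableEq κ]
  {ι : I → Type} [∀ i, Fintype (ι i)] [∀ i, DecidableEq (ι i)]

/-- On a subgroup of finite index, `R` is the direct sum of a representation `RB` and of `n i` copies
of representations `RA i`, which preserve the forms `ψB` and `ψ i` up to a common multiplier. -/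
structure IsSplitting (n : I → ℕ) (ψB : Matrix κ κ ℚ) (ψ : ∀ i, Matrix (ι i) (ι i) ℚ)
    (R : ΓY →* Matrix (Idx κ ι n) (Idx κ ι n) ℚ_[ℓ]) (Δ : Subgroup ΓY)
    (RB : Δ →* Matrix κ κ ℚ_[ℓ]) (RA : ∀ i, Δ →* Matrix (ι i) (ι i) ℚ_[ℓ]) (χ' : Δ →* ℚ_[ℓ]) :
    Prop where
  finite : Δ.FiniteIndex
  splits : ∀ s : Δ, R s = blocks n (RB s) fun i => RA i s
  formB : ∀ s, (RB s).transpose * mapQ ℚ_[ℓ] ψB * RB s = χ' s • mapQ ℚ_[ℓ] ψB
  form : ∀ i s, (RA i s).transpose * mapQ ℚ_[ℓ] (ψ i) * RA i s = χ' s • mapQ ℚ_[ℓ] (ψ i)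

end Pool.Agent.X292.NS
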