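import Pool.Agent.X292.ZP.Fin
import Pool.Agent.X292.NS.Defs

/-!
# The groups of a point and of a subvariety which contains it
-/

set_option autoImplicit false
set_option linter.unusedSectionVars false

namespace Pool.Agent.X292.NS

open Module MvPolynomial
open Pool.Agent.W528.ZC (val Vanishes InIdentityComponent repM mapQ inIC_sub)
open Pool.Agent.X292.ZP

noncomputable section

section gen

variable {k : Type} [Field k] {τ : Type} [Fintype τ] [DecidableEq τ] {Γ ΓY : Type} [Group Γ]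
  [Group ΓY] {Ω : Type} [Field Ω] [Algebra k Ω]

/-- polynomials pull back -/
theorem vanishes_pull (sec : Γ →* ΓY) {R₀ : Γ →* Matrix τ τ k} {R : ΓY →* Matrix τ τ k}
    (h : ∀ s, R (sec s) = R₀ s) {f : MvPolynomial (τ × τ) Ω} (hf : Vanishes R f) :
    Vanishes R₀ f := by
  obtain ⟨Δ, hΔ, hf⟩ := hf
  refine ⟨Δ.comap sec, Pool.Agent.W528.Odd.fi_comap sec Δ hΔ, fun s hs => ?_⟩
  rw [← h s]
  exact hf _ hs

/-- a common subgroup of finite index for all the polynomials -/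
theorem exists_common (R : ΓY →* Matrix τ τ k) : ∃ Δ : Subgroup ΓY, Δ.FiniteIndex ∧
    ∀ f : MvPolynomial (τ × τ) Ω, Vanishes R f → ∀ s ∈ Δ,
      val ((R s).map (algebraMap k Ω)) f = 0 := by
  let J : Ideal (MvPolynomial (τ × τ) Ω) :=
    { carrier := {f | Vanishes R f}
      zero_mem' := ⟨⊤, inferInstance, fun s _ => map_zero _⟩
      add_mem' := by
        rintro a b ⟨Δ, hΔ, h⟩ ⟨Δ', hΔ', h'⟩
        refine ⟨Δ ⊓ Δ', inferInstance, fun s hs => ?_⟩
        have h1 := h s hs.1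
        have h2 := h' s hs.2
        unfold val at h1 h2 ⊢
        rw [map_add, h1, h2, add_zero]
      smul_mem' := by
        rintro c a ⟨Δ, hΔ, h⟩
        refine ⟨Δ, hΔ, fun s hs => ?_⟩
        have h1 := h s hs
        unfold val at h1 ⊢
        rw [smul_eq_mul, map_mul, h1, mul_zero] }
  obtain ⟨S, hS⟩ := (isNoetherianRing_iff_ideal_fg (MvPolynomial (τ × τ) Ω)).1 inferInstance J
  have h1 : ∀ T : Finset (MvPolynomial (τ × τ) Ω), (∀ f ∈ T, Vanishes R f) →
      ∃ Δ : Subgroup ΓY, Δ.FiniteIndex ∧ ∀ f ∈ T, ∀ s ∈ Δ,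
        val ((R s).map (algebraMap k Ω)) f = 0 := by
    classical
    intro T
    induction T using Finset.induction_on with
    | empty => exact fun _ => ⟨⊤, inferInstance, fun f hf => absurd hf (Finset.notMem_empty f)⟩
    | insert a T _ ih =>
      intro hT
      obtain ⟨Δ, hΔ, h⟩ := ih fun f hf => hT f (Finset.mem_insert_of_mem hf)
      obtain ⟨Δ', hΔ', h'⟩ := hT a (Finset.mem_insert_self a T)
      refine ⟨Δ ⊓ Δ', inferInstance, fun f hf s hs => ?_⟩
      rcases Finset.mem_insert.1 hf with rfl | hf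
      · exact h' s hs.2
      · exact h f hf s hs.1
  obtain ⟨Δ, hΔ, h⟩ := h1 S fun f hf => by
    have h2 : f ∈ J := by
      rw [← hS]
      exact Ideal.subset_span hf
    exact h2
  refine ⟨Δ, hΔ, fun f hf s hs => ?_⟩
  have h2 : J ≤ RingHom.ker (aeval (fun p : τ × τ => ((R s).map (algebraMap k Ω)) p.1 p.2) :
      MvPolynomial (τ × τ) Ω →ₐ[Ω] Ω) := by
    rw [← hS, Ideal.span_le]
    intro f hf
    exact h f hf s hs
  exact h2 (show f ∈ J from hf)

theorem unit_rep (R : ΓY →* Matrix τ τ k) (s : ΓY) :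
    IsUnit ((R s).map (algebraMap k Ω)).det := by
  have h1 : (R s).map (algebraMap k Ω) * (R s⁻¹).map (algebraMap k Ω) = 1 := by
    rw [← Matrix.map_mul, ← map_mul, mul_inv_cancel, map_one,
      Matrix.map_one _ (map_zero _) (map_one _)]
  have h2 := congrArg Matrix.det h1
  rw [Matrix.det_mul, Matrix.det_one] at h2
  exact IsUnit.of_mul_eq_one _ h2

theorem vanishes_of_ic {R₀ : Γ →* Matrix τ τ k} {R : ΓY →* Matrix τ τ k}
    (h : ∀ g : Matrix τ τ Ω, IsUnit g.det → InIdentityComponent R g → InIdentityComponent R₀ g)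
    {f : MvPolynomial (τ × τ) Ω} (hf : Vanishes R₀ f) : Vanishes R f := by
  obtain ⟨Δ, hΔ, hcom⟩ := exists_common (Ω := Ω) R
  exact ⟨Δ, hΔ, fun s hs => h _ (unit_rep R s) (fun f' hf' => hcom f' hf' s hs) f hf⟩

end gen

variable {I : Type} [Fintype I] [DecidableEq I] {κ : Type} [Fintype κ] [DecidableEq κ]
  {ι : I → Type} [∀ i, Fintype (ι i)] [∀ i, DecidableEq (ι i)] {Γ ΓY : Type} [Group Γ]
  [Group ΓY] {n : I → ℕ} {ψB : Matrix κ κ ℚ} {ψ : ∀ i, Matrix (ι i) (ι i) ℚ}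

section restr

variable {L : Type} [Field L]

/-- the first block -/
def rB (M : Matrix (Idx κ ι n) (Idx κ ι n) L) : Matrix κ κ L := M.submatrix Sum.inl Sum.inl

/-- the other blocks -/
def rA (hn : ∀ i, 0 < n i) (i : I) (M : Matrix (Idx κ ι n) (Idx κ ι n) L) :
    Matrix (ι i) (ι i) L :=
  M.submatrix (fun a => Sum.inr ⟨i, (a, ⟨0, hn i⟩)⟩) fun a => Sum.inr ⟨i, (a, ⟨0, hn i⟩)⟩

theorem rB_blocks (gB : Matrix κ κ L) (g : ∀ i, Matrix (ι i) (ι i) L) :
    rB (blocks n gB g) = gB := rfl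

theorem rA_blocks (hn : ∀ i, 0 < n i) (gB : Matrix κ κ L) (g : ∀ i, Matrix (ι i) (ι i) L) (i : I) :
    rA hn i (blocks n gB g) = g i := by
  ext a b
  unfold rA
  rw [Matrix.submatrix_apply, blocks_eq, if_pos rfl]

theorem blocks_descend (hn : ∀ i, 0 < n i) {L' : Type} [Field L'] (φ : L →+* L')
    {M : Matrix (Idx κ ι n) (Idx κ ι n) L} {gB : Matrix κ κ L'} {g : ∀ i, Matrix (ι i) (ι i) L'}
    (h : M.map φ = blocks n gB g) : M = blocks n (rB M) fun i => rA hn i M := by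
  have h1 : (blocks n (rB M) fun i => rA hn i M).map φ = blocks n gB g := by
    rw [blocks_map _ (map_zero _)]
    have h2 : (rB M).map φ = gB := by
      have h3 : (rB M).map φ = rB (M.map φ) := rfl
      rw [h3, h, rB_blocks]
    have h4 : (fun i => (rA hn i M).map φ) = g := by
      funext i
      have h3 : (rA hn i M).map φ = rA hn i (M.map φ) := rfl
      rw [h3, h, rA_blocks]
    rw [h2, h4]
  exact Matrix.map_injective φ.injective (h.trans h1.symm)

end restr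

variable (hn : ∀ i, 0 < n i) (hψB : IsUnit ψB.det) (hal : ∀ i, (ψ i).transpose = -ψ i)
  (hnd : ∀ i, IsUnit (ψ i).det) {ℓ : ℕ} [Fact ℓ.Prime] {ρB : Γ →* Matrix κ κ ℚ_[ℓ]}
  {ρ : ∀ i, Γ →* Matrix (ι i) (ι i) ℚ_[ℓ]} {χ : Γ →* ℚ_[ℓ]} (hG : GoodAt ψB ψ ℓ ρB ρ χ)

include hn hψB hal hnd hG in
/-- A splitting with the same group for the first factor gives the same group. -/
theorem same_of_splitting (sec : Γ →* ΓY) {R : ΓY →* Matrix (Idx κ ι n) (Idx κ ι n) ℚ_[ℓ]}
    (hR : ∀ s, R (sec s) = sumRep n ρB ρ s) {Δ : Subgroup ΓY} {RB : Δ →* Matrix κ κ ℚ_[ℓ]}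
    {RA : ∀ i, Δ →* Matrix (ι i) (ι i) ℚ_[ℓ]} {χ' : Δ →* ℚ_[ℓ]}
    (h : IsSplitting n ψB ψ R Δ RB RA χ') (hs : SameGroup ρB RB) :
    SameGroup (sumRep n ρB ρ) R := by
  intro f
  refine ⟨fun hf => vanishes_of_ic (fun g hg hz => ?_) hf, vanishes_pull sec hR⟩
  rw [← inIC_sub R Δ h.finite] at hz
  have hRB : R.comp Δ.subtype = sumRep n RB RA := MonoidHom.ext fun s => h.splits s
  rw [hRB] at hz
  obtain ⟨gB, gA, c, hc, hgg, h1, h2, h3⟩ := inIC_to (K := AlgebraicClosure ℚ_[ℓ]) hn h.formB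
    h.form (unit_mapQ hψB) (fun i => unit_mapQ (hnd i)) hg hz
  rw [mK_mapQ] at h2
  simp only [mK_mapQ] at h3
  have h4 := (one_prime hn hψB hal hnd ℓ hG ⊤ inferInstance hg).2
    ⟨gB, gA, c, hc, hgg, fun f hf => h1 f ((hs f).1 hf), h2, h3⟩
  rwa [inIC_sub _ ⊤ inferInstance] at h4

include hn hψB hnd in
/-- If the groups are the same then there is a splitting. -/
theorem splitting_of_same
    (hB : ∀ s, (ρB s).transpose * mapQ ℚ_[ℓ] ψB * ρB s = χ s • mapQ ℚ_[ℓ] ψB)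
    (hA : ∀ i s, (ρ i s).transpose * mapQ ℚ_[ℓ] (ψ i) * ρ i s = χ s • mapQ ℚ_[ℓ] (ψ i))
    (sec : Γ →* ΓY) {R : ΓY →* Matrix (Idx κ ι n) (Idx κ ι n) ℚ_[ℓ]}
    (hR : ∀ s, R (sec s) = sumRep n ρB ρ s) (hs : SameGroup (sumRep n ρB ρ) R) :
    ∃ (Δ : Subgroup ΓY) (RB : Δ →* Matrix κ κ ℚ_[ℓ]) (RA : ∀ i, Δ →* Matrix (ι i) (ι i) ℚ_[ℓ])
      (χ' : Δ →* ℚ_[ℓ]), IsSplitting n ψB ψ R Δ RB RA χ' ∧ SameGroup ρB RB := by
  obtain ⟨Δ, hΔ, hcom⟩ := exists_common (Ω := AlgebraicClosure ℚ_[ℓ]) R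
  have hic : ∀ s ∈ Δ, InIdentityComponent (sumRep n ρB ρ)
      ((R s).map (algebraMap ℚ_[ℓ] (AlgebraicClosure ℚ_[ℓ]))) := fun s hs' f hf =>
    hcom f ((hs f).1 hf) s hs'
  have hblk : ∀ s : Δ, R s = blocks n (rB (R s)) fun i => rA hn i (R s) := by
    intro s
    obtain ⟨gB, gA, h1⟩ := ic_blocks hn (hic s s.2)
    exact blocks_descend hn _ h1
  have hψ : IsUnit (blocks n (mapQ ℚ_[ℓ] ψB) fun i => mapQ ℚ_[ℓ] (ψ i)).det :=
    unit_blocks (unit_mapQ hψB) fun i => unit_mapQ (hnd i)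
  have hsim : ∀ s ∈ Δ, ∃ c : AlgebraicClosure ℚ_[ℓ],
      Sim (mK (AlgebraicClosure ℚ_[ℓ]) (blocks n (mapQ ℚ_[ℓ] ψB) fun i => mapQ ℚ_[ℓ] (ψ i)))
        ((R s).map (algebraMap ℚ_[ℓ] (AlgebraicClosure ℚ_[ℓ]))) c := by
    intro s hs'
    obtain ⟨c, -, h1⟩ := ic_sim (K := AlgebraicClosure ℚ_[ℓ]) (sum_form hB hA) hψ
      (unit_rep R s) (hic s hs')
    exact ⟨c, h1⟩
  generalize hΨ : (blocks n (mapQ ℚ_[ℓ] ψB) fun i => mapQ ℚ_[ℓ] (ψ i)) = Ψ at hsim
  obtain ⟨χ', hχ'⟩ : ∃ χ' : Δ →* ℚ_[ℓ], ∀ s : Δ, (R s).transpose * Ψ * R s = χ' s • Ψ := by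
    by_cases h0 : Ψ = 0
    · refine ⟨1, fun s => ?_⟩
      rw [h0, mul_zero, zero_mul, smul_zero]
    · obtain ⟨x, y, hxy⟩ : ∃ x y, Ψ x y ≠ 0 := by
        by_contra hcon
        push Not at hcon
        exact h0 (Matrix.ext fun x y => hcon x y)
      have key : ∀ s : Δ, (R s).transpose * Ψ * R s =
          (((R s).transpose * Ψ * R s) x y / Ψ x y) • Ψ := by
        intro s
        obtain ⟨c, hc⟩ := hsim s s.2
        have h1 : ((R s).transpose * Ψ * R s).map (algebraMap ℚ_[ℓ] (AlgebraicClosure ℚ_[ℓ])) =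
            c • Ψ.map (algebraMap ℚ_[ℓ] (AlgebraicClosure ℚ_[ℓ])) := by
          rw [Matrix.map_mul, Matrix.map_mul, Matrix.transpose_map]
          exact hc
        have h2 := congrFun (congrFun h1 x) y
        rw [Matrix.map_apply, Matrix.smul_apply, Matrix.map_apply, smul_eq_mul] at h2
        have h3 : c = algebraMap ℚ_[ℓ] (AlgebraicClosure ℚ_[ℓ])
            (((R s).transpose * Ψ * R s) x y / Ψ x y) := by
          rw [map_div₀, h2, mul_div_assoc, div_self, mul_one]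
          rwa [Ne, map_eq_zero]
        refine Matrix.map_injective (algebraMap ℚ_[ℓ] (AlgebraicClosure ℚ_[ℓ])).injective ?_
        change ((R s).transpose * Ψ * R s).map (algebraMap ℚ_[ℓ] (AlgebraicClosure ℚ_[ℓ])) = _
        rw [h1, h3]
        ext a b
        simp only [Matrix.map_apply, Matrix.smul_apply, smul_eq_mul, map_mul]
      refine ⟨{ toFun := fun s => ((R s).transpose * Ψ * R s) x y / Ψ x y
                map_one' := ?_
                map_mul' := fun s t => ?_ }, key⟩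
      · rw [OneMemClass.coe_one, map_one, Matrix.transpose_one, one_mul, mul_one, div_self hxy]
      · have h1 : (R ((s * t : Δ) : ΓY)).transpose * Ψ * R ((s * t : Δ) : ΓY) =
            (R t).transpose * ((R s).transpose * Ψ * R s) * R t := by
          rw [Subgroup.coe_mul, map_mul, Matrix.transpose_mul]
          simp only [Matrix.mul_assoc]
        rw [h1, key s, Matrix.mul_smul, Matrix.smul_mul, Matrix.smul_apply, smul_eq_mul,
          ← key s, mul_div_assoc]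
  let RB : Δ →* Matrix κ κ ℚ_[ℓ] :=
    { toFun := fun s => rB (R s)
      map_one' := by
        rw [OneMemClass.coe_one, map_one, ← blocks_one, rB_blocks]
      map_mul' := fun s t => by
        rw [Subgroup.coe_mul, map_mul, hblk s, hblk t, blocks_mul, rB_blocks, rB_blocks,
          rB_blocks] }
  let RA : ∀ i, Δ →* Matrix (ι i) (ι i) ℚ_[ℓ] := fun i =>
    { toFun := fun s => rA hn i (R s)
      map_one' := by
        rw [OneMemClass.coe_one, map_one, ← blocks_one, rA_blocks]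
      map_mul' := fun s t => by
        rw [Subgroup.coe_mul, map_mul, hblk s, hblk t, blocks_mul, rA_blocks, rA_blocks,
          rA_blocks] }
  have hsp : ∀ s : Δ, R s = blocks n (RB s) fun i => RA i s := hblk
  have hforms : ∀ s : Δ, (RB s).transpose * mapQ ℚ_[ℓ] ψB * RB s = χ' s • mapQ ℚ_[ℓ] ψB ∧
      (fun i => (RA i s).transpose * mapQ ℚ_[ℓ] (ψ i) * RA i s) =
        fun i => χ' s • mapQ ℚ_[ℓ] (ψ i) := by
    intro s
    have h1 := hχ' s
    rw [hsp s, ← hΨ, blocks_transpose, blocks_mul, blocks_mul, blocks_smul] at h1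
    exact blocks_inj hn h1
  refine ⟨Δ, RB, RA, χ', ⟨hΔ, hsp, fun s => (hforms s).1, fun i s =>
    congrFun (hforms s).2 i⟩, fun f => ⟨fun hf => ?_, fun hf => ?_⟩⟩
  · have h1 : Vanishes (sumRep n ρB ρ) (rename (Prod.map Sum.inl Sum.inl) f) := by
      obtain ⟨Δ', hΔ', hf⟩ := hf
      refine ⟨Δ', hΔ', fun s hs' => ?_⟩
      have h2 := hf s hs'
      unfold val at h2 ⊢
      rw [aeval_rename]
      exact h2
    refine ⟨⊤, inferInstance, fun s _ => ?_⟩
    have h2 := hcom _ ((hs _).1 h1) s s.2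
    unfold val at h2 ⊢
    rw [aeval_rename] at h2
    exact h2
  · obtain ⟨Δ', hΔ', hf⟩ := hf
    refine ⟨(Δ'.map Δ.subtype).comap sec, Pool.Agent.W528.Odd.fi_comap sec _
      (Pool.Agent.W522.U.fi_map hΔ Δ' hΔ'), fun s hs' => ?_⟩
    obtain ⟨t, ht, hts⟩ := hs'
    have h1 := hf t ht
    have h2 : RB t = ρB s := by
      change rB (R (t : ΓY)) = ρB s
      have h3 : (t : ΓY) = sec s := hts
      rw [h3, hR]
      exact rB_blocks _ _
    rwa [h2] at h1

include hn hψB hal hnd hG in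
/-- **The groups of `x` and of `Y`.** -/
theorem same_iff (sec : Γ →* ΓY) {R : ΓY →* Matrix (Idx κ ι n) (Idx κ ι n) ℚ_[ℓ]}
    (hR : ∀ s, R (sec s) = sumRep n ρB ρ s) : SameGroup (sumRep n ρB ρ) R ↔
      ∃ (Δ : Subgroup ΓY) (RB : Δ →* Matrix κ κ ℚ_[ℓ])
        (RA : ∀ i, Δ →* Matrix (ι i) (ι i) ℚ_[ℓ]) (χ' : Δ →* ℚ_[ℓ]),
        IsSplitting n ψB ψ R Δ RB RA χ' ∧ SameGroup ρB RB := by
  constructor
  · exact splitting_of_same hn hψB hnd hG.formB hG.form sec hR
  · rintro ⟨Δ, RB, RA, χ', h1, h2⟩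
    exact same_of_splitting hn hψB hal hnd hG sec hR h1 h2

include hn hψB hal hnd hG in
/-- **The first factor is constant and the other factors vary.** -/
theorem same_const (sec : Γ →* ΓY) (pr : ΓY →* Γ) (hpr : ∀ s, pr (sec s) = s)
    {RA : ∀ i, ΓY →* Matrix (ι i) (ι i) ℚ_[ℓ]} (hRA : ∀ i s, RA i (sec s) = ρ i s)
    (hform : ∀ i s, (RA i s).transpose * mapQ ℚ_[ℓ] (ψ i) * RA i s =
      χ (pr s) • mapQ ℚ_[ℓ] (ψ i)) :
    SameGroup (sumRep n ρB ρ) (sumRep n (ρB.comp pr) RA) := by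
  have hR : ∀ s, sumRep n (ρB.comp pr) RA (sec s) = sumRep n ρB ρ s := by
    intro s
    change blocks n (ρB (pr (sec s))) (fun i => RA i (sec s)) = blocks n (ρB s) fun i => ρ i s
    rw [hpr, show (fun i => RA i (sec s)) = fun i => ρ i s from funext fun i => hRA i s]
  refine same_of_splitting hn hψB hal hnd hG sec hR (Δ := ⊤)
    (RB := (ρB.comp pr).comp (⊤ : Subgroup ΓY).subtype)
    (RA := fun i => (RA i).comp (⊤ : Subgroup ΓY).subtype)
    (χ' := (χ.comp pr).comp (⊤ : Subgroup ΓY).subtype)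
    ⟨inferInstance, fun s => rfl, fun s => hG.formB _, fun i s => hform i _⟩ fun f => ⟨?_, ?_⟩
  · exact vanishes_pull (pr.comp (⊤ : Subgroup ΓY).subtype) fun s => rfl
  · refine vanishes_pull (sec.codRestrict ⊤ fun _ => Subgroup.mem_top _) fun s => ?_
    change ρB (pr (sec s)) = ρB s
    rw [hpr]

end

end Pool.Agent.X292.NS
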