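import Pool.Agent.X292.NS.Main
import Pool.Agent.Results.MP_e965d0_ag.BadPlaces

/-!
# The groups of a point of PEL type and of a subvariety which contains it
-/

set_option autoImplicit false
set_option linter.unusedSectionVars false
set_option linter.deprecated false

namespace Pool.Agent.X292.NS

open Module MvPolynomial
open Pool.Agent.W528.ZC (val Vanishes InIdentityComponent repM mapQ inIC_sub inIC_iff InZ_comm
  toM toM_mul toM_toLin repM_apply Known)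
open Pool.Agent.X292.ZP (ic_sim Sim mK unit_mapQ)
open Pool.Agent.Results.MP_e965d0_ag.BadPlaces (GoodAt)
open Pool.Agent.Y144.QF (hasOne_of one_of_alt one_of_frob)

noncomputable section

section lef

variable {k : Type} [Field k] [CharZero k] {ι : Type} [Fintype ι] [DecidableEq ι] {Γ : Type}
  [Group Γ] {Ω : Type} [Field Ω] [Algebra k Ω]

/-- the identity component is in the Lefschetz group -/
theorem ic_lef {R : Γ →* Matrix ι ι k} {χ : Γ →* k} {ψ : Matrix ι ι k} {E : Set (Matrix ι ι k)}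
    (hf : ∀ s, (R s).transpose * ψ * R s = χ s • ψ) (hψ : IsUnit ψ.det)
    (hE : ∃ Δ : Subgroup Γ, Δ.FiniteIndex ∧ ∀ s ∈ Δ, ∀ e ∈ E, e * R s = R s * e)
    {g : Matrix ι ι Ω} (hg : IsUnit g.det) (hz : InIdentityComponent R g) :
    (∃ c : Ω, c ≠ 0 ∧ g.transpose * ψ.map (algebraMap k Ω) * g = c • ψ.map (algebraMap k Ω)) ∧
      ∀ e ∈ E, g * e.map (algebraMap k Ω) = e.map (algebraMap k Ω) * g := by
  refine ⟨ic_sim hf hψ hg hz, fun e he => ?_⟩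
  rw [inIC_iff] at hz
  obtain ⟨Δ, hΔ, hE⟩ := hE
  have h1 := InZ_comm hz (P := Matrix.toLin' (e.map (algebraMap k Ω)))
    ⟨Δ, hΔ, fun s hs => by
      rw [repM_apply]
      have h2 := congrArg (fun M : Matrix ι ι k => Matrix.toLin' (M.map (algebraMap k Ω)))
        (hE s hs e he)
      simp only [Matrix.map_mul, Matrix.toLin'_mul] at h2
      exact h2⟩
  have h2 := congrArg toM h1
  rwa [toM_mul, toM_mul, toM_toLin, toM_toLin] at h2

end lef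

variable {ι : Type} [Fintype ι] [DecidableEq ι] {ψ : Matrix ι ι ℚ} (hψ : IsUnit ψ.det)
  {E : Set (Matrix ι ι ℚ)} {Γ ΓY : Type} [Group Γ] [Group ΓY] {ℓ : ℕ} [Fact ℓ.Prime]
  {ρ : Γ →* Matrix ι ι ℚ_[ℓ]} {χ : Γ →* ℚ_[ℓ]}

include hψ in
/-- The identity component is the Lefschetz group, for one prime. -/
theorem ic_eq (hgood : GoodAt ψ E ℓ ρ χ) (g : Matrix ι ι (AlgebraicClosure ℚ_[ℓ]))
    (hg : IsUnit g.det) : InIdentityComponent ρ g ↔
      (∃ c : AlgebraicClosure ℚ_[ℓ], c ≠ 0 ∧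
        g.transpose * (mapQ ℚ_[ℓ] ψ).map (algebraMap ℚ_[ℓ] (AlgebraicClosure ℚ_[ℓ])) * g =
          c • (mapQ ℚ_[ℓ] ψ).map (algebraMap ℚ_[ℓ] (AlgebraicClosure ℚ_[ℓ]))) ∧
      ∀ e ∈ mapQ ℚ_[ℓ] '' E, g * e.map (algebraMap ℚ_[ℓ] (AlgebraicClosure ℚ_[ℓ])) =
        e.map (algebraMap ℚ_[ℓ] (AlgebraicClosure ℚ_[ℓ])) * g := by
  refine Pool.Agent.Y144.QF.main_M (unit_mapQ hψ) hgood.1 ?_ g hg
  refine hasOne_of (unit_mapQ hψ) hgood.1 fun L hL hnd hω hss hP hsl U hU => ?_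
  obtain ⟨halt, γ, hγ, hγ'⟩ := hgood.2 U hU
  refine ⟨halt, ?_⟩
  rcases hγ' with ⟨d, hd, hd2⟩ | ⟨h0, w, F, ⟨hFN, n, b, a, c, hc, hwc, hF, ha⟩, hFU, hodd, hsmall⟩
  · exact one_of_alt hL hnd hω hss hU halt hγ hd (hd2.imp_right fun h => ⟨h, hP⟩)
  · refine one_of_frob hL hnd hω hss hU halt hP hγ h0 hFN hFU hc hwc hF
      (hsl F b a c w hF hc hwc) ha hodd ?_
    rcases hsmall with h | ⟨t, ht, hpos, h8⟩
    · exact Or.inl h
    · refine Or.inr ⟨t, ht, ?_, h8⟩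
      intro hbot
      unfold Pool.Agent.Results.MP_e965d0_ag.BadPlaces.mult at hpos
      rw [hbot, finrank_bot] at hpos
      exact lt_irrefl _ hpos

include hψ in
/-- **The groups of `x` and of `Y` are equal if and only if the endomorphisms extend.** -/
theorem same_iff_endo (hgood : GoodAt ψ E ℓ ρ χ) (sec : Γ →* ΓY) {R : ΓY →* Matrix ι ι ℚ_[ℓ]}
    {χY : ΓY →* ℚ_[ℓ]} (hR : ∀ s, R (sec s) = ρ s)
    (hf : ∀ s, (R s).transpose * mapQ ℚ_[ℓ] ψ * R s = χY s • mapQ ℚ_[ℓ] ψ) :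
    SameGroup ρ R ↔ ∃ Δ : Subgroup ΓY, Δ.FiniteIndex ∧
      ∀ s ∈ Δ, ∀ e ∈ E, mapQ ℚ_[ℓ] e * R s = R s * mapQ ℚ_[ℓ] e := by
  constructor
  · intro hs
    obtain ⟨Δ, hΔ, hcom⟩ := exists_common (Ω := AlgebraicClosure ℚ_[ℓ]) R
    refine ⟨Δ, hΔ, fun s hs' e he => ?_⟩
    have hic : InIdentityComponent ρ ((R s).map (algebraMap ℚ_[ℓ] (AlgebraicClosure ℚ_[ℓ]))) :=
      fun f hf' => hcom f ((hs f).1 hf') s hs'
    have h1 := ((ic_eq hψ hgood _ (unit_rep R s)).1 hic).2 _ ⟨e, he, rfl⟩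
    rw [← Matrix.map_mul, ← Matrix.map_mul] at h1
    exact (Matrix.map_injective (algebraMap ℚ_[ℓ] (AlgebraicClosure ℚ_[ℓ])).injective h1).symm
  · rintro ⟨Δ, hΔ, hE⟩ f
    refine ⟨fun hf' => vanishes_of_ic (fun g hg hz => ?_) hf', vanishes_pull sec hR⟩
    refine (ic_eq hψ hgood g hg).2 (ic_lef hf (unit_mapQ hψ) ⟨Δ, hΔ, ?_⟩ hg hz)
    rintro s hs _ ⟨e, he, rfl⟩
    exact hE s hs e he

end

end Pool.Agent.X292.NS
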